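import Pool.Agent.J4H48.HB.Stm

/-!
Project HB of helper48, pieces FULL, SHARP1 (fixed points) and LAT, after `Pool.Agent.J4H72.HK.{Full, Lat}`.
-/

set_option autoImplicit false

open Polynomial NumberField IntermediateField

namespace Pool.Agent.J4H28.HB

open Pool.Agent.J4H48.HB

theorem t_LAT : S_LAT := by
  intro K _ _ R
  have h := (NumberField.Embeddings.finite_of_norm_le K ℂ R).image
    (fun (y : K) (τ : K →+* ℂ) => τ y)
  refine h.subset ?_
  rintro v ⟨⟨x, hx⟩, hv⟩
  refine ⟨algebraMap (𝓞 K) K x, ⟨?_, fun τ => ?_⟩, ?_⟩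
  · exact x.2
  · rw [← hx τ]; exact hv τ
  · funext τ
    exact (hx τ).symm

theorem t_FULL : S_FULL := by
  intro K _ _ F b e hd hb
  set F' : K[X] := F.map (algebraMap (𝓞 K) K) with hF'
  have hinj : Function.Injective (algebraMap (𝓞 K) K) := FaithfulSMul.algebraMap_injective (𝓞 K) K
  have hF'd : F'.natDegree = F.natDegree := natDegree_map_eq_of_injective hinj F
  set l : K[X] := C (algebraMap (𝓞 K) K (b + e)) * X with hl
  have hld : l.natDegree ≤ 1 := by
    rw [hl]
    compute_degree
  set g : K[X] := F' - l with hg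
  have hgd : g.natDegree = F.natDegree := by
    rw [hg, natDegree_sub_eq_left_of_natDegree_lt (by omega), hF'd]
  have hg0 : g ≠ 0 := by
    intro h
    rw [h, natDegree_zero] at hgd
    omega
  have hgdeg : g.degree ≠ 0 := by
    intro h
    have h2 : g.natDegree = 0 := natDegree_eq_of_degree_eq_some h
    omega
  obtain ⟨y, hy⟩ := IsAlgClosed.exists_aeval_eq_zero (AlgebraicClosure K) g hgdeg
  have hint : IsIntegral K y := Algebra.IsIntegral.isIntegral y
  refine ⟨K⟮y⟯, IntermediateField.adjoin.finiteDimensional hint, ?_, (y, y),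
    IntermediateField.mem_adjoin_simple_self K y, IntermediateField.mem_adjoin_simple_self K y,
    1, le_rfl, ?_⟩
  · rw [IntermediateField.adjoin.finrank hint, ← hgd]
    exact Polynomial.natDegree_le_of_dvd (minpoly.dvd K y hy) hg0
  · rw [Function.iterate_one]
    simp only [henon]
    have hbne : algebraMap K (AlgebraicClosure K) (algebraMap (𝓞 K) K b) ≠ 0 := by
      intro h
      apply hb
      apply hinj
      rw [map_zero]
      exact (map_eq_zero (algebraMap K (AlgebraicClosure K))).1 h
    have h1 : aeval y F' = algebraMap K (AlgebraicClosure K) (algebraMap (𝓞 K) K (b + e)) * y := by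
      rw [hg, map_sub, sub_eq_zero] at hy
      rw [hy, hl, map_mul, aeval_C, aeval_X]
    rw [← hF', h1]
    refine Prod.ext rfl ?_
    simp only [map_add]
    rw [div_eq_iff hbne]
    ring

/-- `X ^ (B q) - z ^ q` has a fixed point of degree at most `B` -/
theorem hasPer_root (K : Type) [Field K] [NumberField K] (B q : ℕ) (hB : 1 ≤ B) (z : 𝓞 K) :
    HasPer K (X ^ (B * q) + C (-(z ^ q))) 1 (-1) B := by
  obtain ⟨y, hy⟩ := IsAlgClosed.exists_pow_nat_eq
    (algebraMap K (AlgebraicClosure K) (algebraMap (𝓞 K) K z)) (show 0 < B by omega)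
  have hroot : aeval y (X ^ B - C (algebraMap (𝓞 K) K z) : K[X]) = 0 := by
    simp [hy]
  have hmon : (X ^ B - C (algebraMap (𝓞 K) K z) : K[X]).Monic := monic_X_pow_sub_C _ (by omega)
  have hint : IsIntegral K y := ⟨_, hmon, by simpa [aeval_def] using hroot⟩
  refine ⟨K⟮y⟯, IntermediateField.adjoin.finiteDimensional hint, ?_, (y, y),
    IntermediateField.mem_adjoin_simple_self K y, IntermediateField.mem_adjoin_simple_self K y,
    1, le_rfl, ?_⟩
  · rw [IntermediateField.adjoin.finrank hint]
    refine (Polynomial.natDegree_le_of_dvd (minpoly.dvd K y hroot) hmon.ne_zero).trans ?_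
    rw [natDegree_X_pow_sub_C]
  · rw [Function.iterate_one]
    simp only [henon, Polynomial.map_pow, Polynomial.map_X, Polynomial.map_add, Polynomial.map_C,
      map_add, map_pow, aeval_X, aeval_C, map_neg, map_one]
    rw [pow_mul, hy]
    simp

theorem t_SHARP1 : S_SHARP1 := by
  intro K _ _ B q hB hq _ k
  set A : Set ℤ := {s : ℤ | 0 ≤ s ∧ s < (k ^ q : ℕ) ∧
    HasPer K (X ^ (B * q) + C ((1 - (k : 𝓞 K) ^ q) + s • (1 : 𝓞 K))) 1 (-1) B} with hA
  have hfin : A.Finite := (Set.finite_Ico (0 : ℤ) ((k ^ q : ℕ) : ℤ)).subset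
    fun c hc => ⟨hc.1, hc.2.1⟩
  set f : ℕ → ℤ := fun j => (k : ℤ) ^ q - 1 - (j : ℤ) ^ q with hf
  have hinj : Function.Injective f := by
    intro a b hab
    simp only [hf] at hab
    have h0 : ((a : ℤ) ^ q) = (b : ℤ) ^ q := by linarith
    have h1 : (a ^ q : ℕ) = b ^ q := by exact_mod_cast h0
    exact Nat.pow_left_injective (by omega) h1
  have hsub : ((Finset.range k).image f : Set ℤ) ⊆ A := by
    intro c hc
    rw [Finset.mem_coe, Finset.mem_image] at hc
    obtain ⟨j, hj, rfl⟩ := hc
    rw [Finset.mem_range] at hj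
    have h1 : (j : ℤ) ^ q < (k : ℤ) ^ q := by
      have : j ^ q < k ^ q := Nat.pow_lt_pow_left hj (by omega)
      exact_mod_cast this
    have h2 : (0 : ℤ) ≤ (j : ℤ) ^ q := by positivity
    refine ⟨?_, ?_, ?_⟩
    · simp only [hf]; omega
    · simp only [hf]; push_cast; omega
    · have h3 := hasPer_root K B q hB (j : 𝓞 K)
      have h4 : ((1 - (k : 𝓞 K) ^ q) + (f j) • (1 : 𝓞 K)) = -((j : 𝓞 K) ^ q) := by
        simp only [hf, zsmul_eq_mul, mul_one]
        push_cast
        ring
      rw [h4]
      exact h3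
  have h3 := Set.ncard_le_ncard hsub hfin
  rwa [Set.ncard_coe_finset, Finset.card_image_of_injective _ hinj, Finset.card_range] at h3

end Pool.Agent.J4H28.HB
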