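import Pool.Agent.J4H48.HB.Stm

/-!
Project HB, piece LINE: cells of a progression in any position.
-/

set_option autoImplicit false

open Polynomial NumberField
open Pool.Agent.J4H48.HB

namespace Pool.Agent.J4H28.HB

/-- the body of `S_MCELL` for one pair `θ, K` -/
def MC (θ K : ℝ) : Prop := ∀ a l : ℝ, 1 ≤ l →
  ∃ κ : ℝ → ℕ, (∀ x, a ≤ x → x ≤ a + l → (κ x : ℝ) ≤ K * l ^ θ) ∧
    (∀ x y, a ≤ x → x ≤ y → y ≤ a + l → κ x ≤ κ y) ∧
    ∀ x y, a ≤ x → x ≤ a + l → a ≤ y → y ≤ a + l → κ x = κ y →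
      |x - y| ≤ K * (max |x| |y|) ^ (1 - θ)

theorem line_pos {θ K : ℝ} (h : MC θ K) (u v : ℝ) (hv : 0 ≤ v) (m : ℕ) :
    ∃ κ : ℤ → ℕ, (∀ s : ℤ, 0 ≤ s → s < m → (κ s : ℝ) ≤ K * (max 1 (|v| * m)) ^ θ) ∧
      (∀ s s' : ℤ, 0 ≤ s → s ≤ s' → s' < m → κ s ≤ κ s') ∧
      ∀ s s' : ℤ, 0 ≤ s → s < m → 0 ≤ s' → s' < m → κ s = κ s' →
        |(u + s * v) - (u + s' * v)| ≤ K * (max |u + s * v| |u + s' * v|) ^ (1 - θ) := by
  obtain ⟨κ, h1, h2, h3⟩ := h u (max 1 (|v| * m)) (le_max_left _ _)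
  have lo : ∀ s : ℤ, 0 ≤ s → u ≤ u + s * v := by
    intro s hs
    have : (0 : ℝ) ≤ s := by exact_mod_cast hs
    nlinarith [mul_nonneg this hv]
  have hi : ∀ s : ℤ, 0 ≤ s → s < m → u + s * v ≤ u + max 1 (|v| * m) := by
    intro s _ hs
    have h4 : (s : ℝ) ≤ m := by exact_mod_cast hs.le
    have h5 : (s : ℝ) * v ≤ |v| * m := by
      rw [abs_of_nonneg hv, mul_comm]
      exact mul_le_mul_of_nonneg_left h4 hv
    linarith [le_max_right (1 : ℝ) (|v| * m)]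
  refine ⟨fun s => κ (u + s * v), ?_, ?_, ?_⟩
  · intro s h0 hm
    exact h1 _ (lo s h0) (hi s h0 hm)
  · intro s s' h0 hss hm
    refine h2 _ _ (lo s h0) ?_ (hi s' (h0.trans hss) hm)
    have : (s : ℝ) ≤ s' := by exact_mod_cast hss
    nlinarith [mul_le_mul_of_nonneg_right this hv]
  · intro s s' h0 hm h0' hm' he
    exact h3 _ _ (lo s h0) (hi s h0 hm) (lo s' h0') (hi s' h0' hm') he

theorem line_all {θ K : ℝ} (h : MC θ K) (u v : ℝ) (m : ℕ) :
    ∃ κ : ℤ → ℕ, (∀ s : ℤ, 0 ≤ s → s < m → (κ s : ℝ) ≤ K * (max 1 (|v| * m)) ^ θ) ∧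
      (∀ s s' : ℤ, 0 ≤ s → s ≤ s' → s' < m → κ s ≤ κ s') ∧
      ∀ s s' : ℤ, 0 ≤ s → s < m → 0 ≤ s' → s' < m → κ s = κ s' →
        |(u + s * v) - (u + s' * v)| ≤ K * (max |u + s * v| |u + s' * v|) ^ (1 - θ) := by
  rcases le_total 0 v with hv | hv
  · exact line_pos h u v hv m
  · obtain ⟨κ, h1, h2, h3⟩ := line_pos h (-u) (-v) (by linarith) m
    refine ⟨κ, ?_, h2, ?_⟩
    · intro s h0 hm
      have := h1 s h0 hm
      rwa [abs_neg] at this
    · intro s s' h0 hm h0' hm' he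
      have := h3 s s' h0 hm h0' hm' he
      have e1 : ∀ s : ℤ, -u + (s : ℝ) * -v = -(u + s * v) := by intro s; ring
      rw [e1 s, e1 s', abs_neg, abs_neg] at this
      have e2 : |-(u + (s : ℝ) * v) - -(u + s' * v)| = |(u + s * v) - (u + s' * v)| := by
        rw [← abs_neg]; congr 1; ring
      rwa [e2] at this

/-- from the coordinates to the absolute values -/
theorem emb_bound {K : Type} [Field K] [NumberField K] {θ C : ℝ} (_hθ0 : 0 < θ) (hθ : θ < 1)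
    (hC : 1 ≤ C) (x : Fin (Module.finrank ℚ K) → (K →+ ℝ))
    (hx : ∀ τ : K →+* ℂ, ∃ I : Finset (Fin (Module.finrank ℚ K)), ∀ y : K,
      ‖τ y‖ ≤ ∑ i ∈ I, |x i y| ∧ ∀ i ∈ I, |x i y| ≤ ‖τ y‖) (z z' : K)
    (h : ∀ i, |x i z - x i z'| ≤ C * (max |x i z| |x i z'|) ^ (1 - θ)) (τ : K →+* ℂ) :
    ‖τ z - τ z'‖ ≤ (Module.finrank ℚ K * C) * (max 1 (max ‖τ z‖ ‖τ z'‖)) ^ (1 - θ) := by
  obtain ⟨I, hI⟩ := hx τ
  have h1 := (hI (z - z')).1
  rw [map_sub] at h1
  have hM : (0 : ℝ) ≤ (max 1 (max ‖τ z‖ ‖τ z'‖)) ^ (1 - θ) :=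
    Real.rpow_nonneg (le_trans zero_le_one (le_max_left _ _)) _
  calc ‖τ z - τ z'‖ ≤ ∑ i ∈ I, |x i (z - z')| := h1
    _ ≤ ∑ _i ∈ I, C * (max 1 (max ‖τ z‖ ‖τ z'‖)) ^ (1 - θ) := by
        apply Finset.sum_le_sum
        intro i hi
        rw [map_sub]
        refine (h i).trans ?_
        apply mul_le_mul_of_nonneg_left _ (by linarith)
        apply Real.rpow_le_rpow (le_trans (abs_nonneg _) (le_max_left _ _)) _ (by linarith)
        refine le_trans ?_ (le_max_right _ _)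
        exact max_le_max ((hI z).2 i hi) ((hI z').2 i hi)
    _ = I.card * (C * (max 1 (max ‖τ z‖ ‖τ z'‖)) ^ (1 - θ)) := by
        rw [Finset.sum_const, nsmul_eq_mul]
    _ ≤ Module.finrank ℚ K * (C * (max 1 (max ‖τ z‖ ‖τ z'‖)) ^ (1 - θ)) := by
        apply mul_le_mul_of_nonneg_right _ (mul_nonneg (by linarith) hM)
        have := Finset.card_le_univ I
        rw [Fintype.card_fin] at this
        exact_mod_cast this
    _ = _ := by ring

theorem t_LINE : S_GRID → S_MCELL → S_LINE := by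
  intro hG hM K _ _ θ h0 h1 w
  obtain ⟨C, hC, hcell⟩ := hM θ h0 h1
  obtain ⟨x, hx⟩ := hG K
  have hcell' : MC θ C := hcell
  set v : Fin (Module.finrank ℚ K) → ℝ := fun i => x i (algebraMap (𝓞 K) K w) with hv
  set S : ℝ := ∑ i, C * (max 1 |v i|) ^ θ with hS
  have hSnn : 0 ≤ S := by
    apply Finset.sum_nonneg
    intro i _
    exact mul_nonneg (by linarith) (Real.rpow_nonneg (le_trans zero_le_one (le_max_left _ _)) _)
  have hkC : 0 ≤ (Module.finrank ℚ K : ℝ) * C :=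
    mul_nonneg (Nat.cast_nonneg _) (by linarith)
  refine ⟨S + 1 + Module.finrank ℚ K * C, by linarith, ?_⟩
  intro x₀ m hm
  have hm1 : (1 : ℝ) ≤ m := by exact_mod_cast hm
  have hmθ : (1 : ℝ) ≤ (m : ℝ) ^ θ := Real.one_le_rpow hm1 h0.le
  choose κ hk1 hk2 hk3 using
    fun i => line_all hcell' (x i (algebraMap (𝓞 K) K x₀)) (v i) m
  have hco : ∀ (i) (s : ℤ), x i (algebraMap (𝓞 K) K (x₀ + s • w)) =
      x i (algebraMap (𝓞 K) K x₀) + s * v i := by
    intro i s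
    rw [map_add, map_add, map_zsmul, map_zsmul, zsmul_eq_mul]
  set B : ℝ := ∑ i, C * (max 1 (|v i| * m)) ^ θ with hB
  have hBS : B ≤ S * (m : ℝ) ^ θ := by
    rw [hB, hS, Finset.sum_mul]
    apply Finset.sum_le_sum
    intro i _
    rw [mul_assoc]
    apply mul_le_mul_of_nonneg_left _ (by linarith)
    rw [← Real.mul_rpow (le_trans zero_le_one (le_max_left _ _)) (by linarith)]
    apply Real.rpow_le_rpow (le_trans zero_le_one (le_max_left _ _)) _ h0.le
    apply max_le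
    · nlinarith [le_max_left (1 : ℝ) |v i|]
    · exact mul_le_mul_of_nonneg_right (le_max_right _ _) (by linarith)
  have hBnn : 0 ≤ B := by
    apply Finset.sum_nonneg
    intro i _
    exact mul_nonneg (by linarith) (Real.rpow_nonneg (le_trans zero_le_one (le_max_left _ _)) _)
  refine ⟨⌊B⌋₊ + 1, fun s => ∑ i, κ i s, ?_, ?_, ?_⟩
  · push_cast
    have := Nat.floor_le hBnn
    nlinarith
  · intro s hs hsm
    apply Nat.lt_succ_of_le
    apply Nat.le_floor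
    push_cast
    apply Finset.sum_le_sum
    intro i _
    exact hk1 i s hs hsm
  · -- equal sums
    have key : ∀ s s' : ℤ, 0 ≤ s → s < m → 0 ≤ s' → s' < m → s ≤ s' →
        ∑ i, κ i s = ∑ i, κ i s' → ∀ i, κ i s = κ i s' := by
      intro s s' hs _ _ hs'm hss he i
      have hle : ∀ i ∈ (Finset.univ : Finset (Fin (Module.finrank ℚ K))), κ i s ≤ κ i s' :=
        fun i _ => hk2 i s s' hs hss hs'm
      exact (Finset.sum_eq_sum_iff_of_le hle).1 he i (Finset.mem_univ i)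
    intro s s' hs hsm hs' hsm' he τ
    have he' : ∀ i, κ i s = κ i s' := by
      rcases le_total s s' with hss | hss
      · exact key s s' hs hsm hs' hsm' hss he
      · exact fun i => (key s' s hs' hsm' hs hsm hss he.symm i).symm
    have := emb_bound h0 h1 hC x hx (algebraMap (𝓞 K) K (x₀ + s • w))
      (algebraMap (𝓞 K) K (x₀ + s' • w)) (fun i => by
        rw [hco i s, hco i s']
        exact hk3 i s s' hs hsm hs' hsm' (he' i)) τ
    refine le_trans this ?_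
    apply mul_le_mul_of_nonneg_right _ (Real.rpow_nonneg (le_trans zero_le_one (le_max_left _ _)) _)
    linarith

end Pool.Agent.J4H28.HB
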